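import Mathlib
import Pool.Agent.helper49.BlockDefs
import Pool.Agent.helper49.Blocks4

/-!
Number of characters in a faithful block when `p` divides `|G : F(G)|`: the bound
`k(B) ≥ p / log_2 p` is false.

The definitions `Irr`, `omega`, `SameBlock`, `IsBlock`, `IsFaithful`, `HasPositiveDefect` and
`fitting` are in `Pool/Agent/helper49/BlockDefs.lean`.

The group is `(±1)^S ⋊ (S × S)` with `S` the group of affine maps `x ↦ u x + b` of the prime field
with `65537` elements, `u` in the subgroup of order `256`, and `S × S` acting on `S` by two-sided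
translation. The block is the one that covers the linear character `n ↦ n(1)` of `(±1)^S`.
-/

set_option autoImplicit false

open Pool.Agent.helper49.Blk

namespace Pool.Agent.Results.MP_9530fa_al.FaithfulBlock

theorem prime_65537 : Nat.Prime 65537 := by norm_num

theorem pow_aux (a b k : ℕ) (h : a ^ k % 65537 = b % 65537) : ((a : ZMod 65537)) ^ k = b := by
  have : ((a ^ k : ℕ) : ZMod 65537) = ((b : ℕ) : ZMod 65537) :=
    (ZMod.natCast_eq_natCast_iff _ _ _).mpr h
  rw [← this]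
  push_cast
  rfl

/-- A unit of order `256`. -/
def u0 : (ZMod 65537)ˣ where
  val := ((282 : ℕ) : ZMod 65537)
  inv := ((64375 : ℕ) : ZMod 65537)
  val_inv := by
    rw [← Nat.cast_mul]
    have : ((282 * 64375 : ℕ) : ZMod 65537) = ((1 : ℕ) : ZMod 65537) :=
      (ZMod.natCast_eq_natCast_iff _ _ _).mpr (by norm_num [Nat.ModEq])
    rw [this, Nat.cast_one]
  inv_val := by
    rw [← Nat.cast_mul]
    have : ((64375 * 282 : ℕ) : ZMod 65537) = ((1 : ℕ) : ZMod 65537) :=
      (ZMod.natCast_eq_natCast_iff _ _ _).mpr (by norm_num [Nat.ModEq])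
    rw [this, Nat.cast_one]

theorem order_u0 : orderOf u0 = 2 ^ (7 + 1) := by
  have : Fact (Nat.Prime 2) := ⟨Nat.prime_two⟩
  apply orderOf_eq_prime_pow
  · intro h
    have h1 := congrArg (fun u : (ZMod 65537)ˣ => (u : ZMod 65537)) h
    simp only [Units.val_pow_eq_pow_val, Units.val_one] at h1
    have h2 : ((282 : ℕ) : ZMod 65537) ^ (2 ^ 7) = ((65536 : ℕ) : ZMod 65537) :=
      pow_aux _ _ _ (by norm_num)
    have h3 : ((65536 : ℕ) : ZMod 65537) = ((1 : ℕ) : ZMod 65537) := by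
      rw [← h2, Nat.cast_one]; exact h1
    rw [ZMod.natCast_eq_natCast_iff] at h3
    norm_num [Nat.ModEq] at h3
  · apply Units.ext
    simp only [Units.val_pow_eq_pow_val, Units.val_one]
    have h2 : ((282 : ℕ) : ZMod 65537) ^ (2 ^ (7 + 1)) = ((1 : ℕ) : ZMod 65537) :=
      pow_aux _ _ _ (by norm_num)
    rw [Nat.cast_one] at h2
    exact h2

theorem card_U : Nat.card (Subgroup.zpowers u0) = 256 := by
  rw [Nat.card_zpowers, order_u0]
  norm_num

theorem index_U : (Subgroup.zpowers u0).index = 256 := by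
  have : Fact (Nat.Prime 65537) := ⟨prime_65537⟩
  have h := Subgroup.card_mul_index (Subgroup.zpowers u0)
  rw [card_U, Nat.card_eq_fintype_card, ZMod.card_units_eq_totient,
    Nat.totient_prime prime_65537] at h
  omega

theorem U_ne : Subgroup.zpowers u0 ≠ ⊥ := by
  intro h
  have := card_U
  rw [h, Subgroup.card_bot] at this
  omega

theorem numeric : (8 : ℝ) * 512 < ((65537 : ℕ) : ℝ) / Real.logb 2 ((65537 : ℕ) : ℝ) := by
  have h0 : (0 : ℝ) < Real.logb 2 ((65537 : ℕ) : ℝ) := Real.logb_pos (by norm_num) (by norm_num)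
  rw [lt_div_iff₀ h0]
  have h2 : Real.logb 2 ((65537 : ℕ) : ℝ) * 4096 = Real.logb 2 (((65537 : ℕ) : ℝ) ^ 4096) := by
    rw [Real.logb_pow]; push_cast; ring
  have h3 : Real.logb 2 (((65537 : ℕ) : ℝ) ^ 4096) < 65537 := by
    rw [Real.logb_lt_iff_lt_rpow (by norm_num) (by positivity)]
    have h4 : (65537 : ℕ) ^ 4096 < 2 ^ 65537 := by decide +kernel
    have h5 : ((65537 : ℕ) : ℝ) ^ 4096 < (2 : ℝ) ^ (65537 : ℕ) := by exact_mod_cast h4
    have h6 : (2 : ℝ) ^ (65537 : ℝ) = (2 : ℝ) ^ (65537 : ℕ) := by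
      rw [← Real.rpow_natCast]; norm_num
    rw [h6]
    exact h5
  have h7 : ((65537 : ℕ) : ℝ) = 65537 := by norm_num
  rw [← h2] at h3
  rw [h7] at h3 ⊢
  linarith

theorem result :
    ∃ (p : ℕ) (G : Type) (_ : Group G) (_ : Finite G), p.Prime ∧ p ∣ (fitting G).index ∧
      (∃ M : Ideal (integralClosure ℤ ℂ), M.IsMaximal ∧ (p : integralClosure ℤ ℂ) ∈ M) ∧
      ∀ M : Ideal (integralClosure ℤ ℂ), M.IsMaximal → (p : integralClosure ℤ ℂ) ∈ M →
        ∃ B : Set (G → ℂ), IsBlock M B ∧ IsFaithful B ∧ HasPositiveDefect p B ∧ B.Finite ∧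
          8 * (B.ncard : ℝ) < p / Real.logb 2 p := by
  obtain ⟨G, hG, hfin, h1, h2⟩ := main_construction 65537 prime_65537 (by norm_num)
    (Subgroup.zpowers u0) U_ne
  refine ⟨65537, G, hG, hfin, prime_65537, h1, exists_maximal 65537 prime_65537, ?_⟩
  intro M hM hpM
  obtain ⟨B, hB1, hB2, hB3, hB4, hB5⟩ := h2 M hM hpM
  refine ⟨B, hB1, hB2, hB3, hB4, ?_⟩
  rw [card_U, index_U] at hB5
  have h3 : (B.ncard : ℝ) ≤ 512 := by exact_mod_cast hB5
  calc 8 * (B.ncard : ℝ) ≤ 8 * 512 := by linarith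
    _ < _ := numeric

end Pool.Agent.Results.MP_9530fa_al.FaithfulBlock
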